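import Pool.Agent.U505.MG.MinEq

set_option autoImplicit false

/-!
# Record prime-free intervals around all the minors of a matrix of given determinant modulo a prime

Let `f(x) = log x (log₂ x)² log₄ x / (log₃ x)²` be the order of the longest prime-free intervals that are
known to occur up to `x` (starting files).  Let `p` be a large prime, `n ≥ 2`, and let `g` run through the
`n × n` matrices of determinant `d ≠ 0` over the field with `p` elements.  We consider ALL the
`N = C(2n, n) - 2` minors of `g` of the sizes `1, …, n - 1` at once (for `n ≥ 3` these are the entries of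
`g`, up to signs and the factor `d` the entries of `g⁻¹`, and all the minors between them).  Represent the
minors by integers from given intervals of lengths between `p ^ δ` and `p`, in arbitrary position, with
product of the lengths at least `p ^ (N - 1 + δ)`.  Then for at least `p ^ (-δ)` times the expected number
of matrices `g` all the `N` minors are represented by integers `z_w` of the intervals such that all the
monomials in the `z_w` with bounded coprime exponents (in particular all the `z_w`) lie in the middle of
prime-free intervals of the record length for the modulus `p`.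

Method.  A combination `P` of the minors is affine in each row.  Choose a minor of the smallest size which
occurs in `P` and one of its rows.  Along the direction `v` in this row which does not change the
determinant, `P` changes linearly with the factor `⟨L, v⟩`, where `L` is the gradient of `P` in the row; so
only the matrices with `⟨L, v⟩ = 0` contribute to the exponential sum.  This is a polynomial of degree
`≤ 2 n` in the other rows; test matrices, monomial ones with a parameter, show that it is not identically
zero, because the minor of smallest size does not fill the whole matrix.  So the exponential sums save the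
factor `p / (8 n)`.  The criterion for families of vectors with small exponential sums (starting library
`N39.RG`) gives the prime-free intervals.
-/

namespace Pool.Agent.Results.MP_c853c5_nt.AllMinorsModP

open Finset

/-- The record scale `f(x) = log x (log₂ x)² log₄ x / (log₃ x)²` (iterated natural logarithms). -/
noncomputable def f (x : ℝ) : ℝ :=
  Real.log x * (Real.log (Real.log x)) ^ 2 * Real.log (Real.log (Real.log (Real.log x))) /
    (Real.log (Real.log (Real.log x))) ^ 2

/-- The positions of the minors of the sizes `k + 1 = 1, …, n - 1`: the rows and the columns, in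
increasing order. -/
abbrev Position (n : ℕ) : Type :=
  (k : Fin (n - 1)) × ((Fin (k + 1) ↪o Fin n) × (Fin (k + 1) ↪o Fin n))

noncomputable instance (n : ℕ) : Fintype (Position n) := Fintype.ofFinite _

/-- The minor of `g` at the position `w`. -/
def minor {p n : ℕ} (g : Matrix (Fin n) (Fin n) (ZMod p)) (w : Position n) : ZMod p :=
  (g.submatrix w.2.1 w.2.2).det

/-- All the minors of the sizes `1, …, n - 1` of `g` are represented modulo `p` by integers `z w` in the
intervals `(M w, M w + L w]` such that for all coprime exponents `e w ≤ E` every integer at distance at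
most `κ f(p)` from `∏ (z w) ^ (e w)` has a prime factor `l ≤ p ^ δ`. -/
def Centred {n : ℕ} (E : ℕ) (κ δ : ℝ) (p : ℕ) (M : Position n → ℤ) (L : Position n → ℕ)
    (g : Matrix (Fin n) (Fin n) (ZMod p)) : Prop :=
  ∃ z : Position n → ℤ,
    (∀ w, M w < z w ∧ z w ≤ M w + L w ∧ ((z w : ℤ) : ZMod p) = minor g w) ∧
    ∀ e : Position n → ℕ, (∀ w, e w ≤ E) → Finset.univ.gcd e = 1 →
      ∀ m : ℤ, |(m : ℝ) - ∏ w, (z w : ℝ) ^ e w| ≤ κ * f p →
        ∃ l : ℕ, l.Prime ∧ (l : ℝ) ≤ (p : ℝ) ^ δ ∧ (l : ℤ) ∣ m

/-- **Record prime-free intervals around all the minors of matrices of given determinant modulo `p`.** -/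
theorem result (n E : ℕ) (hn : 2 ≤ n) (δ : ℝ) (hδ : 0 < δ) (hδ1 : δ ≤ 1) :
    ∃ κ : ℝ, 0 < κ ∧ ∃ p₀ : ℕ, ∀ p : ℕ, p.Prime → p₀ ≤ p → ∀ d : ZMod p, d ≠ 0 →
    ∀ (M : Position n → ℤ) (L : Position n → ℕ), (∀ w, (p : ℝ) ^ δ ≤ L w ∧ L w ≤ p) →
      (p : ℝ) ^ ((Nat.card (Position n) : ℝ) - 1 + δ) ≤ ∏ w, (L w : ℝ) →
      (p : ℝ) ^ ((n : ℝ) ^ 2 - 1 - δ) * ∏ w, ((L w : ℝ) / p) ≤
        (({g | g.det = d ∧ Centred E κ δ p M L g} :
          Set (Matrix (Fin n) (Fin n) (ZMod p))).ncard : ℝ) :=
  Pool.Agent.U505.MG.minEq n E hn δ hδ hδ1

end Pool.Agent.Results.MP_c853c5_nt.AllMinorsModP
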