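import Pool.Agent.U607.LocalUni

/-!
# Short intervals of all lengths contain almost primes, for all but few positions in every short interval

`Λ_r = r + 1 - log (4 / (1 + 3 ^ (-r))) / log 3` is Richert's constant; `2 / Λ_3 < 0.722`, `2 / Λ_4 < 0.534`, and
`2 / Λ_r → 0`.  For `θ > 2 / Λ_r` and every interval `(M, M + Y] ⊆ [1, X]` with `Y ≥ X ^ θ`, all but
`O(Y (log X) ^ 7 / H₀)` of the integers `n` of this interval have the following property, for ALL lengths `H`,
`H₀ ≤ H ≤ X`, at once: `(n, n + H]` contains at least `δ H / log X` integers with at most `r` prime factors.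

Method: the weighted linear sieve and the large sieve for windows of the starting library (`Pool.Agent.K3h31`), now over
the windows of a short interval; the numbers with a large square factor are removed by a first moment; the windows of
length `X ^ (θ / 2)` and more are all good (`Pool.Agent.K3h89.SI.every`).
-/

set_option autoImplicit false

namespace Pool.Agent.Results.MP_c853c5_nt.AlmostPrimesAllLengths

open Finset

/-- Richert's constant `Λ_r`, equal to `r + 1 - log (4 / (1 + 3 ^ (-r))) / log 3`. -/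
noncomputable def Lam (r : ℕ) : ℝ := 1 + Real.log ((3 ^ r + 1) / 4) / Real.log 3

open Classical in
/-- The number of the integers in `(n, n + H]` with at most `r` prime factors (counted with multiplicity), all of them at
least `w`. -/
noncomputable def almostPrimes (r : ℕ) (w : ℝ) (n H : ℕ) : ℕ :=
  ((Ioc n (n + H)).filter (fun m : ℕ => m.primeFactorsList.length ≤ r ∧
    ∀ q : ℕ, q.Prime → q ∣ m → w ≤ q)).card

open Classical in
/-- **Almost primes in the intervals of all lengths.**  Let `r ≥ 1`, `2 / Λ_r < θ ≤ 1` and `ζ < θ / 8`.  There are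
`δ, C > 0` such that for `X ≥ 3`, for every interval `(M, M + Y]` with `M + Y ≤ X` and `Y ≥ X ^ θ`, and for every real
`H₀ ≥ 1`, all but at most `C Y (log X) ^ 7 / H₀` of the integers `n` in `(M, M + Y]` have the property: for every integer
`H` with `H₀ ≤ H ≤ X` at least `δ H / log X` integers in `(n, n + H]` have at most `r` prime factors, all of them at
least `X ^ ζ`. -/
theorem result (r : ℕ) (θ ζ : ℝ) (hr : 1 ≤ r) (hθr : 2 / Lam r < θ) (hθ : θ ≤ 1) (hζ : ζ < θ / 8) :
    ∃ δ C : ℝ, 0 < δ ∧ 0 < C ∧ ∀ X : ℕ, 3 ≤ X → ∀ M Y : ℕ, M + Y ≤ X → (X : ℝ) ^ θ ≤ Y →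
      ∀ H₀ : ℝ, 1 ≤ H₀ →
      (((Ioc M (M + Y)).filter (fun n : ℕ => ∃ H : ℕ, H₀ ≤ H ∧ H ≤ X ∧
        (almostPrimes r ((X : ℝ) ^ ζ) n H : ℝ) < δ * H / Real.log X)).card : ℝ) ≤
      C * (Y * Real.log X ^ 7 / H₀) := by
  classical
  have hL3 := Pool.Agent.K3h19.RV.log3_pos
  have hLam0 : 0 < Lam r := by
    unfold Lam
    have h3 : (3 : ℝ) ^ 1 ≤ 3 ^ r := pow_le_pow_right₀ (by norm_num) hr
    have h4 : 0 ≤ Real.log ((3 ^ r + 1) / 4) := Real.log_nonneg (by linarith)
    have h5 : 0 ≤ Real.log ((3 ^ r + 1) / 4) / Real.log 3 := div_nonneg h4 (by linarith)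
    linarith
  have hLamE : Pool.Agent.K3h19.RV.Lam r = Lam r := rfl
  have h1 : 1 / Lam r < θ / 2 := by
    rw [div_lt_iff₀ hLam0] at hθr ⊢
    linarith
  obtain ⟨τ, hτ⟩ : ∃ τ : ℝ, τ = max (4 * ζ) ((1 / Lam r + θ / 2) / 2) := ⟨_, rfl⟩
  have h2 : 1 / Lam r < τ := by
    rw [hτ]
    exact lt_of_lt_of_le (by linarith) (le_max_right _ _)
  have h3 : τ < θ / 2 := by
    rw [hτ]
    apply max_lt <;> linarith
  have h4 : 4 * ζ ≤ τ := by rw [hτ]; exact le_max_left _ _
  have h5 : 0 < τ := lt_trans (by positivity) h2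
  have h6 : 1 < τ * Pool.Agent.K3h19.RV.Lam r := by
    rw [hLamE]
    rwa [div_lt_iff₀ hLam0] at h2
  obtain ⟨δ, C, hδ, hC, X₀, H⟩ := Pool.Agent.U607.LW.uniform r hr τ (θ / 2) h5 (by linarith) h6 h3
  refine ⟨δ, C + X₀, hδ, by positivity, ?_⟩
  intro X hX M Y hMY hYX H₀ hH₀
  have hXr : (3 : ℝ) ≤ X := by exact_mod_cast hX
  have hL1 : 1 ≤ Real.log X := by
    have : Real.exp 1 ≤ X := by linarith [Real.exp_one_lt_d9]
    rw [Real.le_log_iff_exp_le (by linarith)]
    exact this
  have hL0 : 0 < Real.log X := by linarith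
  have hp7 : 1 ≤ Real.log X ^ 7 := one_le_pow₀ hL1
  have hY0 : (0 : ℝ) ≤ Y := Nat.cast_nonneg _
  rcases lt_or_ge X X₀ with hlt | hge
  · rcases lt_or_ge (X : ℝ) H₀ with h7 | h7
    · rw [filter_false_of_mem]
      · rw [card_empty, Nat.cast_zero]
        positivity
      · rintro n _ ⟨H', a1, a2, _⟩
        have : (H' : ℝ) ≤ X := by exact_mod_cast a2
        linarith
    · have h8 : (((Ioc M (M + Y)).filter (fun n : ℕ => ∃ H : ℕ, H₀ ≤ H ∧ H ≤ X ∧
        (almostPrimes r ((X : ℝ) ^ ζ) n H : ℝ) < δ * H / Real.log X)).card : ℝ) ≤ Y := by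
        have := card_filter_le (Ioc M (M + Y)) (fun n : ℕ => ∃ H : ℕ, H₀ ≤ H ∧ H ≤ X ∧
          (almostPrimes r ((X : ℝ) ^ ζ) n H : ℝ) < δ * H / Real.log X)
        rw [Nat.card_Ioc, Nat.add_sub_cancel_left] at this
        exact_mod_cast this
      refine h8.trans ?_
      have h9 : (X : ℝ) ≤ X₀ := by exact_mod_cast hlt.le
      rw [← mul_div_assoc, le_div_iff₀ (by linarith)]
      calc (Y : ℝ) * H₀ ≤ Y * X₀ := mul_le_mul_of_nonneg_left (h7.trans h9) hY0
        _ = X₀ * (Y * 1) := by ring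
        _ ≤ (C + X₀) * (Y * Real.log X ^ 7) := by
            apply mul_le_mul
            · linarith
            · exact mul_le_mul_of_nonneg_left hp7 hY0
            · positivity
            · positivity
  · have h7 := H X hge M Y hMY (by rwa [mul_div_cancel₀ _ (by norm_num : (2 : ℝ) ≠ 0)]) H₀ hH₀
    have hcount : ∀ n H' : ℕ, (Pool.Agent.K3h31.WL.good r ((X : ℝ) ^ (τ / 4)) H' n).card ≤
        almostPrimes r ((X : ℝ) ^ ζ) n H' := by
      intro n H'
      unfold almostPrimes
      apply card_le_card_of_injOn (fun j => n + j)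
      · intro j hj
        unfold Pool.Agent.K3h31.WL.good at hj
        rw [mem_coe, mem_filter, mem_Icc] at hj
        rw [mem_coe, mem_filter, mem_Ioc]
        refine ⟨⟨?_, ?_⟩, hj.2.1, fun q hq hqn => le_trans ?_ (hj.2.2 q hq hqn)⟩
        · show n < n + j
          omega
        · show n + j ≤ n + H'
          omega
        · exact Real.rpow_le_rpow_of_exponent_le (by linarith) (by linarith)
      · intro a _ b _ hab
        simpa using hab
    have h8 : ((Ioc M (M + Y)).filter (fun n : ℕ => ∃ H : ℕ, H₀ ≤ H ∧ H ≤ X ∧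
        (almostPrimes r ((X : ℝ) ^ ζ) n H : ℝ) < δ * H / Real.log X)).card ≤
        ((Icc 1 Y).filter (fun x => ∃ H : ℕ, H₀ ≤ H ∧ H ≤ X ∧
          ((Pool.Agent.K3h31.WL.good r ((X : ℝ) ^ (τ / 4)) H (M + x)).card : ℝ) <
            δ * H / Real.log X)).card := by
      apply card_le_card_of_injOn (fun n => n - M)
      · intro n hn
        rw [mem_coe, mem_filter, mem_Ioc] at hn
        obtain ⟨hn1, H', a1, a2, a3⟩ := hn
        rw [mem_coe, mem_filter, mem_Icc]
        refine ⟨⟨?_, ?_⟩, H', a1, a2, ?_⟩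
        · show 1 ≤ n - M
          omega
        · show n - M ≤ Y
          omega
        rw [show M + (n - M) = n by omega]
        refine lt_of_le_of_lt ?_ a3
        exact_mod_cast hcount n H'
      · intro a ha b hb hab
        rw [mem_coe, mem_filter, mem_Ioc] at ha hb
        simp only at hab
        omega
    have h9 : (((Ioc M (M + Y)).filter (fun n : ℕ => ∃ H : ℕ, H₀ ≤ H ∧ H ≤ X ∧
        (almostPrimes r ((X : ℝ) ^ ζ) n H : ℝ) < δ * H / Real.log X)).card : ℝ) ≤
        (((Icc 1 Y).filter (fun x => ∃ H : ℕ, H₀ ≤ H ∧ H ≤ X ∧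
          ((Pool.Agent.K3h31.WL.good r ((X : ℝ) ^ (τ / 4)) H (M + x)).card : ℝ) <
            δ * H / Real.log X)).card : ℝ) := by exact_mod_cast h8
    refine h9.trans (h7.trans ?_)
    have h10 : (0 : ℝ) ≤ Y * Real.log X ^ 7 / H₀ := by positivity
    apply mul_le_mul_of_nonneg_right _ h10
    linarith [Nat.cast_nonneg (α := ℝ) X₀]

end Pool.Agent.Results.MP_c853c5_nt.AlmostPrimesAllLengths
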