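import Mathlib
import Pool.Agent.U52.PD.CntD

set_option autoImplicit false

/-!
# How often the distance to the next displaced prime exceeds `c (log n)²`

Replace every prime `p` by `p + ξ_p` with independent random integers `ξ_p ≥ 0`, let `Q` be the set of the
numbers `p + ξ_p` and `g(n)` the distance from `n` to the next element of `Q`. The order of magnitude of the large
values of `g` is `(log n)²`. Here we count them: `F(c, X)` is the number of the `n ≤ X` with
`g(n) > c (log n)²`. We show, without any hypothesis, that almost surely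

* `F(c, X) ≥ X ^ (1 - c Λ - o(1))`, `Λ = δ + log (1 / δ)`, for all laws that move each prime with a probability of at
  least `δ`, with point masses `o(1 / (log p)²)` and displacements `o(p)`;
* `F(c, X) ≤ X ^ (1 - c δ + o(1))` if each value `1, …, p / (log p)^B` has a probability of at least `δ (log p)^B / p`;
* `F(c, X) = X ^ (1 - c + o(1))` for all `0 < c < 1` if the displacements are uniform on these values, as in
  Cramér's model of the primes;
* `F(c, X) ≤ X ^ (1 - κ c δ + o(1))` with an absolute constant `κ > 0` if each prime `p` stays with the probability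
  `1 - δ` and is moved by a uniform amount up to `p ^ s` with the probability `δ`, `θ ≤ s < 1`.

Proof. Lower bound: the expected number of empty windows among disjoint windows `(n, n + c (log n)²]` of a dyadic
block is a power of `X` (average over the windows of the exponents, convexity, prime number theorem); the
events are negatively correlated, so by Chebyshev's inequality at least half of the expected number of
windows is empty. Upper bound: the prime number theorem with error term bounds the probability that the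
window at `n` is empty by `n ^ (- c δ + o(1))` (for (4): Hoheisel's theorem), and the series of `1 / n ^ s` over the empty windows converges.
-/

open MeasureTheory ProbabilityTheory Filter Topology

namespace Pool.Agent.Results.MP_c853c5_nt.DisplacedPrimesFrequency

/-- The set of the numbers `p + ξ_p`, `p` prime. -/
def Displaced {Ω : Type*} (ξ : ℕ → Ω → ℕ) (ω : Ω) : Set ℕ := {q | ∃ p : ℕ, p.Prime ∧ p + ξ p ω = q}

/-- The distance from `n` to the next element of `Q`. -/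
noncomputable def g (Q : Set ℕ) (n : ℕ) : ℕ := sInf {q | q ∈ Q ∧ n < q} - n

open Classical in
/-- The number of the positive integers `n ≤ X` with `g(n) > c (log n)²`. -/
noncomputable def F (Q : Set ℕ) (c : ℝ) (X : ℕ) : ℕ :=
  ((Finset.Icc 1 X).filter (fun n : ℕ => c * (Real.log n) ^ 2 < (g Q n : ℝ))).card

/-- The displacements are random variables and independent. -/
structure Indep {Ω : Type*} [MeasurableSpace Ω] (μ : Measure Ω) (ξ : ℕ → Ω → ℕ) : Prop where
  meas : ∀ p, Measurable (ξ p)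
  indep : iIndepFun ξ μ

/-- Independent displacements; every prime `p` is moved with a probability of at least `δ`, each value
`j ≥ 1` of the displacement has a probability of at most `q p`, and the displacement is at most `m p`. -/
structure Spread {Ω : Type*} [MeasurableSpace Ω] (μ : Measure Ω) (ξ : ℕ → Ω → ℕ) (δ : ℝ) (q : ℕ → ℝ)
    (m : ℕ → ℕ) : Prop extends Indep μ ξ where
  moved : ∀ p : ℕ, p.Prime → δ ≤ μ.real {ω | ξ p ω ≠ 0}
  point : ∀ p : ℕ, p.Prime → ∀ j : ℕ, 1 ≤ j → μ.real (ξ p ⁻¹' {j}) ≤ q p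
  range : ∀ p : ℕ, p.Prime → ∀ᵐ ω ∂μ, ξ p ω ≤ m p

/-- Independent displacements; each of the values `1, …, D p` has a probability of at least `δ / D p`. -/
structure Dense {Ω : Type*} [MeasurableSpace Ω] (μ : Measure Ω) (ξ : ℕ → Ω → ℕ) (δ : ℝ) (D : ℕ → ℕ) :
    Prop extends Indep μ ξ where
  point : ∀ p : ℕ, p.Prime → ∀ j : ℕ, 1 ≤ j → j ≤ D p → δ / (D p : ℝ) ≤ μ.real (ξ p ⁻¹' {j})

/-- Independent displacements; the displacement of the prime `p` is uniformly distributed on `1, …, D p`. -/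
structure Uniform {Ω : Type*} [MeasurableSpace Ω] (μ : Measure Ω) (ξ : ℕ → Ω → ℕ) (D : ℕ → ℕ) :
    Prop extends Indep μ ξ where
  law : ∀ p : ℕ, p.Prime → ∀ j : ℕ, μ.real (ξ p ⁻¹' {j}) =
    if 1 ≤ j ∧ j ≤ D p then 1 / (D p : ℝ) else 0

/-- Independent displacements; the prime `p` stays with the probability `1 - δ`, and each of the
displacements `1, …, D p` has the probability `δ / D p`. -/
structure Partly {Ω : Type*} [MeasurableSpace Ω] (μ : Measure Ω) (ξ : ℕ → Ω → ℕ) (δ : ℝ) (D : ℕ → ℕ) :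
    Prop extends Indep μ ξ where
  law : ∀ p : ℕ, p.Prime → ∀ j : ℕ, μ.real (ξ p ⁻¹' {j}) =
    if j = 0 then 1 - δ else if j ≤ D p then δ / (D p : ℝ) else 0

theorem result.{u} :
    -- (1) the lower bound for arbitrary laws
    (∀ δ : ℝ, 0 < δ → δ ≤ 1 → ∀ (q : ℕ → ℝ) (m : ℕ → ℕ),
      Tendsto (fun n : ℕ => q n * (Real.log n) ^ 2) atTop (𝓝 0) →
      Tendsto (fun n : ℕ => (m n : ℝ) / n) atTop (𝓝 0) →
      ∀ (Ω : Type u) [MeasurableSpace Ω] (μ : Measure Ω) [IsProbabilityMeasure μ] (ξ : ℕ → Ω → ℕ),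
      Spread μ ξ δ q m → ∀ᵐ ω ∂μ, ∀ c : ℝ, 0 < c → c * (δ + Real.log (1 / δ)) < 1 →
        ∀ s : ℝ, s < 1 - c * (δ + Real.log (1 / δ)) → ∀ᶠ X : ℕ in atTop,
          (X : ℝ) ^ s ≤ F (Displaced ξ ω) c X) ∧
    -- (2) the upper bound
    (∀ δ : ℝ, 0 < δ → δ ≤ 1 → ∀ B : ℕ, 1 ≤ B →
      ∀ (Ω : Type u) [MeasurableSpace Ω] (μ : Measure Ω) [IsProbabilityMeasure μ] (ξ : ℕ → Ω → ℕ),
      Dense μ ξ δ (fun p => ⌊(p : ℝ) / (Real.log p) ^ B⌋₊ + 1) →
      ∀ᵐ ω ∂μ, ∀ c : ℝ, 0 < c → c * δ ≤ 1 → ∀ s : ℝ, 1 - c * δ < s → ∀ᶠ X : ℕ in atTop,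
        (F (Displaced ξ ω) c X : ℝ) ≤ (X : ℝ) ^ s) ∧
    -- (3) the exact exponent for uniform displacements
    (∀ B : ℕ, 1 ≤ B →
      ∀ (Ω : Type u) [MeasurableSpace Ω] (μ : Measure Ω) [IsProbabilityMeasure μ] (ξ : ℕ → Ω → ℕ),
      Uniform μ ξ (fun p => ⌊(p : ℝ) / (Real.log p) ^ B⌋₊ + 1) →
      ∀ᵐ ω ∂μ, ∀ c : ℝ, 0 < c → c < 1 →
        Tendsto (fun X : ℕ => Real.log (F (Displaced ξ ω) c X) / Real.log X) atTop (𝓝 (1 - c))) ∧
    -- (4) displacements of the size of a power of `p`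
    (∃ θ : ℝ, θ < 1 ∧ ∃ κ : ℝ, 0 < κ ∧ ∀ s : ℝ, θ ≤ s → s < 1 → ∀ δ : ℝ, 0 < δ → δ ≤ 1 →
      ∀ (Ω : Type u) [MeasurableSpace Ω] (μ : Measure Ω) [IsProbabilityMeasure μ] (ξ : ℕ → Ω → ℕ),
      Partly μ ξ δ (fun p => ⌊(p : ℝ) ^ s⌋₊ + 1) → ∀ᵐ ω ∂μ,
        ∀ c : ℝ, 0 < c → c * (κ * δ) ≤ 1 → ∀ r : ℝ, 1 - c * (κ * δ) < r → ∀ᶠ X : ℕ in atTop,
          (F (Displaced ξ ω) c X : ℝ) ≤ (X : ℝ) ^ r) := by
  refine ⟨?_, ?_, ?_, ?_⟩
  · intro δ hδ hδ1 q m hq hm Ω _ μ _ ξ h
    exact Pool.Agent.U52.PD.low_all δ hδ hδ1 q m hq hm h.meas h.indep h.moved h.point h.range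
  · intro δ hδ hδ1 B hB Ω _ μ _ ξ h
    exact Pool.Agent.U52.PD.up_all δ hδ hδ1 B hB h.meas h.indep h.point
  · intro B hB Ω _ μ _ ξ h
    refine Pool.Agent.U52.PD.lim_all B hB h.meas h.indep ?_
    intro p hp j
    rw [h.law p hp j]
    have e : Pool.Agent.U839.Disp.DL B p = ⌊(p : ℝ) / (Real.log p) ^ B⌋₊ + 1 := rfl
    rw [e]
    by_cases hj : j = 0
    · rw [if_neg (by omega), if_pos hj, sub_self]
    · rw [if_neg hj]
      by_cases hj2 : j ≤ ⌊(p : ℝ) / (Real.log p) ^ B⌋₊ + 1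
      · rw [if_pos ⟨by omega, hj2⟩, if_pos hj2]
      · rw [if_neg (fun h => hj2 h.2), if_neg hj2]
  · obtain ⟨θ, h0, h1, κ, hκ, h⟩ := Pool.Agent.U52.PD.freq_pow.{u}
    exact ⟨θ, h1, κ, hκ, fun s hs hs1 δ hδ hδ1 Ω _ μ _ ξ hξ =>
      h s hs hs1 δ hδ hδ1 Ω μ ξ hξ.meas hξ.indep hξ.law⟩

end Pool.Agent.Results.MP_c853c5_nt.DisplacedPrimesFrequency
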