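import Pool.Agent.N39.RG.Pairs
import Pool.Agent.U215.MH.Sums

set_option autoImplicit false

/-! # Record prime gaps on modular hyperbolas, and around the inverses of sums modulo `p`

Let `f(x) = log x (log₂ x)² log₄ x / (log₃ x)²`, the size of the largest gaps that are known to occur among
the primes. We find gaps of this size around integers `x` and around their inverses modulo a prime `p`, at the
same time.

**Theorem.** 1. Let `k ≥ 2`, `E ≥ 0` and `0 < δ ≤ 1`. There are `κ > 0` and `p₀` such that for every prime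
number `p ≥ p₀`, every `c` which is not divisible by `p` and every box `∏ (M_j, M_j + L_j]` with sides
`L_j ≤ p` and volume at least `p^(k - 1/2 + δ)` there are at least `p^(-δ) ∏ L_j / p` integer points `z` in the
box with `z_1 z_2 ⋯ z_k ≡ c` modulo `p` (the expected number of all points is `∏ L_j / p`) with the following
property: for all coprime exponents `e_j ≤ E` every integer at distance at most `κ f(p)` from `∏ z_j^(e_j)` has
a prime factor at most `p^δ`. For `k = 2`, `c = 1`, `L_2 = p`: every interval of length `p^(1/2 + δ)` contains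
many integers `x` such that `x` and the inverse `x'` of `x` modulo `p`, and also `x x'`, `x² x'`, ..., are in the
middle of record gaps between primes.

2. Let `X` be any finite index set, `Y` a set of at least `p^(1/2 + 2 ε)` residues modulo `p`, `b, c_j, u_j`
(`1 ≤ j ≤ r`) any functions on `X`, `v_j` any functions on `F_p`, and `e_j` any elements of `F_p`. Consider
the vectors with the coordinates

  `c_j(x) y + e_j / (y + b(x)) + u_j(x) + v_j(y)`, `x` in `X`, `y` in `Y`.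

Suppose that for every `α ≠ 0` in `F_p^r` there are at most `|X|² |Y| / p^(1 + 2 ε)` pairs `(x, x')` in `X × X`
such that `∑ α_j (c_j(x) - c_j(x')) = 0` and (`∑ α_j e_j = 0` or `b(x) = b(x')`). Then for every box with sides
between `p^δ` and `p` and with volume at least `p^(r - ε + δ)` there are at least
`p^(-δ) |X| |Y| ∏ (L_j / p)` pairs `(x, y)` whose vector is the residue of an integer vector `z` in the box such
that all monomials in the coordinates of `z` with coprime exponents at most `E` are in the middle of record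
gaps, as above.

For instance (`r = 1`): the inverses `1 / (x + y)` of the sums of the elements `x`, `y` of two arbitrary sets of
residues `X`, `Y` with `|Y| ≥ p^(1/2 + 2 ε)`, `|X| |Y| ≥ p^(1 + 2 ε)`, multiplied by any constant and with
arbitrary functions of `x` and of `y` added; (`r = 2`): the products `x y` and the inverses `1 / (x + y)` at the
same time.

The starting result `PolynomialFamilies` of this problem is the analogue for polynomials in place of inverses;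
its general theorem on families with small exponential sums is `Pool.Agent.N39.RG.mainE` of the starting
library. New are the exponential sums: the sums over the hyperbola are Kloosterman sums (Weil's bound,
`H498R2.Kl` of the library), and the bilinear sums are reduced by the inequality of Cauchy and Schwarz to
complete sums of `a / x - a / (x + c) + b x` (Weil's bound, `Y807.WB` of the library). -/

namespace Pool.Agent.Results.MP_c853c5_nt.ModularHyperbolas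

open Finset Filter

/-- the record scale for gaps between primes -/
noncomputable def f (x : ℝ) : ℝ :=
  Real.log x * (Real.log (Real.log x)) ^ 2 * Real.log (Real.log (Real.log (Real.log x))) /
    (Real.log (Real.log (Real.log x))) ^ 2

/-- For all coprime exponents `e j ≤ E` every integer at distance at most `κ f(p)` from `∏ (z j) ^ (e j)` has a
prime factor at most `p ^ δ`. -/
def InGaps (E : ℕ) (κ δ : ℝ) (p : ℕ) {r : ℕ} (z : Fin r → ℤ) : Prop :=
  ∀ e : Fin r → ℕ, (∀ j, e j ≤ E) → Finset.univ.gcd e = 1 →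
    ∀ m : ℤ, |(m : ℝ) - ∏ j, (z j : ℝ) ^ e j| ≤ κ * f p →
      ∃ l : ℕ, l.Prime ∧ (l : ℝ) ≤ (p : ℝ) ^ δ ∧ (l : ℤ) ∣ m

/-- The points of the modular hyperbola (hypersurface) `z_1 z_2 ⋯ z_k ≡ c` modulo `p`, `k ≥ 2`, in boxes. -/
def Hyperbola (k E : ℕ) (δ κ : ℝ) (p : ℕ) : Prop :=
  ∀ c : ℤ, ¬ (p : ℤ) ∣ c → ∀ (M : Fin k → ℤ) (L : Fin k → ℕ), (∀ j, L j ≤ p) →
    (p : ℝ) ^ ((k : ℝ) - 1 / 2 + δ) ≤ ∏ j, (L j : ℝ) →
    (p : ℝ) ^ (-δ) * ((∏ j, (L j : ℝ)) / p) ≤
      ({z : Fin k → ℤ | (∀ j, M j < z j ∧ z j ≤ M j + L j) ∧ ∏ j, z j ≡ c [ZMOD p] ∧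
        InGaps E κ δ p z}.ncard : ℝ)

open scoped Classical in
/-- The vectors `c_j(x) y + e_j / (y + b(x)) + u_j(x) + v_j(y)` modulo `p`. -/
def Inverses (r E : ℕ) (δ κ : ℝ) (p : ℕ) [Fact p.Prime] : Prop :=
  ∀ (ε : ℝ) (I : Type) (X : Finset I) (Y : Finset (ZMod p)) (b : I → ZMod p)
    (c u : I → Fin r → ZMod p) (e : Fin r → ZMod p) (v : ZMod p → Fin r → ZMod p), X.Nonempty →
    (p : ℝ) ^ (1 / 2 + 2 * ε) ≤ Y.card →
    (∀ α : Fin r → ZMod p, α ≠ 0 →
      (((X ×ˢ X).filter (fun q => ∑ j, α j * (c q.1 j - c q.2 j) = 0 ∧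
        (∑ j, α j * e j = 0 ∨ b q.1 = b q.2))).card : ℝ) *
        (p : ℝ) ^ (1 + 2 * ε) ≤ (X.card : ℝ) ^ 2 * Y.card) →
    ∀ (M : Fin r → ℤ) (L : Fin r → ℕ), (∀ j, (p : ℝ) ^ δ ≤ L j ∧ L j ≤ p) →
      (p : ℝ) ^ ((r : ℝ) - ε + δ) ≤ ∏ j, (L j : ℝ) →
    (p : ℝ) ^ (-δ) * (X.card * Y.card * ∏ j, ((L j : ℝ) / p)) ≤
      (((X ×ˢ Y).filter (fun q => ∃ z : Fin r → ℤ,
        (∀ j, M j < z j ∧ z j ≤ M j + L j ∧
          ((z j : ℤ) : ZMod p) = c q.1 j * q.2 + e j * (q.2 + b q.1)⁻¹ + u q.1 j + v q.2 j) ∧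
        InGaps E κ δ p z)).card : ℝ)

lemma rpow_ev (δ C : ℝ) (hδ : 0 < δ) : ∃ n : ℕ, ∀ p : ℕ, n ≤ p → C ≤ (p : ℝ) ^ δ := by
  have hev : ∀ᶠ x : ℝ in atTop, C ≤ x ^ δ := (tendsto_rpow_atTop hδ).eventually_ge_atTop C
  obtain ⟨x₀, hx₀⟩ := eventually_atTop.mp hev
  obtain ⟨n, hn⟩ := exists_nat_ge x₀
  exact ⟨n, fun p hp => hx₀ p (hn.trans (by exact_mod_cast hp))⟩

lemma part_one (k E : ℕ) (hk : 2 ≤ k) (δ : ℝ) (hδ : 0 < δ) (hδ1 : δ ≤ 1) :
    ∃ κ : ℝ, 0 < κ ∧ ∃ p₀ : ℕ, ∀ p : ℕ, p.Prime → p₀ ≤ p → Hyperbola k E δ κ p := by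
  classical
  obtain ⟨n, rfl⟩ : ∃ n, k = n + 2 := ⟨k - 2, by omega⟩
  obtain ⟨κ, hκ, p₁, h⟩ := Pool.Agent.N39.RG.mainE (n + 2) E (δ / 2) (by linarith) (by linarith)
  obtain ⟨p₂, hp₂⟩ := rpow_ev (δ / 4) 4 (by linarith)
  obtain ⟨p₃, hp₃⟩ := rpow_ev (δ / 2) (2 ^ (n + 1)) (by linarith)
  refine ⟨κ, hκ, max (max p₁ p₂) (max p₃ 3), ?_⟩
  intro p hp hpp c hc M L hL hV
  have : Fact p.Prime := ⟨hp⟩
  have g4 : 4 ≤ (p : ℝ) ^ (δ / 4) := hp₂ p ((le_max_right _ _).trans ((le_max_left _ _).trans hpp))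
  have g2 : (2 : ℝ) ^ (n + 1) ≤ (p : ℝ) ^ (δ / 2) :=
    hp₃ p ((le_max_left _ _).trans ((le_max_right _ _).trans hpp))
  have hp3 : 3 ≤ p := (le_max_right _ _).trans ((le_max_right _ _).trans hpp)
  have hp1 : (1 : ℝ) < p := by exact_mod_cast hp.one_lt
  have hp0 : (0 : ℝ) < p := by linarith
  have hmo : ∀ x y : ℝ, x ≤ y → (p : ℝ) ^ x ≤ (p : ℝ) ^ y := fun x y h =>
    Real.rpow_le_rpow_of_exponent_le hp1.le h
  have hc0 : (c : ZMod p) ≠ 0 := fun h => hc ((ZMod.intCast_zmod_eq_zero_iff_dvd c p).1 h)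
  have hScard : (((univ : Finset (Fin (n + 1) → (ZMod p)ˣ)).card : ℕ) : ℝ) = ((p : ℝ) - 1) ^ (n + 1) := by
    rw [card_univ, Fintype.card_fun, Fintype.card_fin, ZMod.card_units_eq_totient,
      Nat.totient_prime hp, Nat.cast_pow, Nat.cast_sub hp.one_le, Nat.cast_one]
  have hhalf : (p : ℝ) / 2 ≤ p - 1 := by
    have : (3 : ℝ) ≤ p := by exact_mod_cast hp3
    linarith
  have hm0 : (0 : ℝ) ≤ p - 1 := by linarith
  have hside : ∀ j, (p : ℝ) ^ (δ / 2) ≤ L j := by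
    intro j
    have h1 : ∏ i, (L i : ℝ) = L j * ∏ i ∈ univ.erase j, (L i : ℝ) :=
      (mul_prod_erase univ (fun i => (L i : ℝ)) (mem_univ j)).symm
    have h2 : ∏ i ∈ univ.erase j, (L i : ℝ) ≤ (p : ℝ) ^ (n + 1) := by
      refine (prod_le_prod (fun i _ => Nat.cast_nonneg _)
        (fun i _ => (by exact_mod_cast hL i : (L i : ℝ) ≤ p))).trans (le_of_eq ?_)
      rw [prod_const, card_erase_of_mem (mem_univ _), card_univ, Fintype.card_fin]
      rfl
    have h3 : (p : ℝ) ^ (1 / 2 + δ) * (p : ℝ) ^ (n + 1) ≤ L j * (p : ℝ) ^ (n + 1) := by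
      have e1 : (p : ℝ) ^ (1 / 2 + δ) * (p : ℝ) ^ (n + 1) =
          (p : ℝ) ^ (((n + 2 : ℕ) : ℝ) - 1 / 2 + δ) := by
        rw [← Real.rpow_natCast, ← Real.rpow_add hp0]
        congr 1
        push_cast
        ring
      rw [e1]
      refine hV.trans ?_
      rw [h1]
      exact mul_le_mul_of_nonneg_left h2 (Nat.cast_nonneg _)
    exact (hmo _ _ (by linarith)).trans (le_of_mul_le_mul_right h3 (by positivity))
  have key := h p ((le_max_left _ _).trans ((le_max_left _ _).trans hpp)) (1 / 2 - δ / 4)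
    (Fin (n + 1) → (ZMod p)ˣ) univ (fun x => Pool.Agent.U215.MH.pt (c : ZMod p) x) univ_nonempty (by
      intro α hα
      refine (Pool.Agent.U215.MH.hyper_sum_many hp3 (c : ZMod p) hc0 n α hα).trans ?_
      rw [hScard]
      have h4 : (p : ℝ) ^ (-(1 / 2 - δ / 4)) = (p : ℝ) ^ (δ / 4) / Real.sqrt p := by
        rw [Real.sqrt_eq_rpow, ← Real.rpow_sub hp0]
        congr 1
        ring
      have hs0 : 0 < Real.sqrt p := Real.sqrt_pos.2 hp0
      have h5 : Real.sqrt p * Real.sqrt p = p := Real.mul_self_sqrt hp0.le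
      rw [h4, mul_div_assoc', le_div_iff₀ hs0]
      calc 2 * Real.sqrt p * ((p : ℝ) - 1) ^ n * Real.sqrt p
          = 2 * (Real.sqrt p * Real.sqrt p) * ((p : ℝ) - 1) ^ n := by ring
        _ = ((p : ℝ) - 1) ^ n * ((p : ℝ) / 2 * 4) := by rw [h5]; ring
        _ ≤ ((p : ℝ) - 1) ^ n * ((p - 1) * (p : ℝ) ^ (δ / 4)) := by gcongr
        _ = _ := by ring) M L hL hside
    (by
      refine (hmo _ _ ?_).trans hV
      linarith)
  rw [hScard] at key
  have hQ0 : 0 ≤ (∏ j, (L j : ℝ)) / p := div_nonneg (prod_nonneg fun j _ => Nat.cast_nonneg _) hp0.le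
  have e1 : (p : ℝ) ^ (-δ) * ((∏ j, (L j : ℝ)) / p) ≤
      (p : ℝ) ^ (-(δ / 2)) * (((p : ℝ) - 1) ^ (n + 1) * ∏ j, ((L j : ℝ) / p)) := by
    have h1 : (p : ℝ) ^ (-δ) ≤ (p : ℝ) ^ (-(δ / 2)) * (1 / 2) ^ (n + 1) := by
      have h2 : (p : ℝ) ^ (-(δ / 2)) = (p : ℝ) ^ (-δ) * (p : ℝ) ^ (δ / 2) := by
        rw [← Real.rpow_add hp0]
        congr 1
        ring
      have h4 : 0 < (p : ℝ) ^ (-δ) := Real.rpow_pos_of_pos hp0 _
      rw [h2, mul_assoc]
      have h5 : 1 ≤ (p : ℝ) ^ (δ / 2) * (1 / 2) ^ (n + 1) := by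
        rw [one_div, inv_pow, ← div_eq_mul_inv, le_div_iff₀ (by positivity), one_mul]
        exact g2
      nlinarith
    have e2 : ∏ j : Fin (n + 2), ((L j : ℝ) / p) = (∏ j, (L j : ℝ)) / p * (1 / (p : ℝ)) ^ (n + 1) := by
      rw [prod_div_distrib, prod_const, card_univ, Fintype.card_fin, one_div, inv_pow, pow_succ]
      field_simp
    calc (p : ℝ) ^ (-δ) * ((∏ j, (L j : ℝ)) / p)
        ≤ (p : ℝ) ^ (-(δ / 2)) * (1 / 2) ^ (n + 1) * ((∏ j, (L j : ℝ)) / p) := by gcongr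
      _ = (p : ℝ) ^ (-(δ / 2)) * (((p : ℝ) / 2) ^ (n + 1) * ((∏ j, (L j : ℝ)) / p *
            (1 / (p : ℝ)) ^ (n + 1))) := by
          rw [div_pow, div_pow, div_pow]
          field_simp
      _ ≤ _ := by
          rw [e2]
          gcongr
  refine e1.trans (key.trans ?_)
  rw [Nat.cast_le]
  have hfin : {z : Fin (n + 2) → ℤ | (∀ j, M j < z j ∧ z j ≤ M j + L j) ∧ ∏ j, z j ≡ c [ZMOD p] ∧
        InGaps E κ δ p z}.Finite := by
    refine (Fintype.piFinset (fun j => Finset.Ioc (M j) (M j + L j))).finite_toSet.subset ?_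
    rintro z ⟨hz, -⟩
    rw [mem_coe, Fintype.mem_piFinset]
    exact fun j => mem_Ioc.2 (hz j)
  rw [Set.ncard_eq_toFinset_card _ hfin]
  apply Finset.card_le_card_of_injOn (fun z => z.2)
  · intro z hz
    rw [mem_coe, mem_filter, Pool.Agent.N39.RG.fam, mem_sigma, Fintype.mem_piFinset] at hz
    obtain ⟨⟨h1, h2⟩, h3⟩ := hz
    rw [mem_coe, Set.Finite.mem_toFinset]
    refine ⟨fun j => ?_, ?_, ?_⟩
    · have h6 := h2 j
      rw [mem_filter, mem_Ioc] at h6
      exact h6.1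
    · rw [← ZMod.intCast_eq_intCast_iff]
      push_cast
      have h7 : ∀ j, ((z.2 j : ℤ) : ZMod p) = Pool.Agent.U215.MH.pt (c : ZMod p) z.1 j := by
        intro j
        have h6 := h2 j
        rw [mem_filter] at h6
        exact h6.2
      rw [prod_congr rfl fun j _ => h7 j, Fin.prod_univ_succ]
      unfold Pool.Agent.U215.MH.pt
      rw [Fin.cons_zero]
      simp only [Fin.cons_succ]
      rw [mul_assoc]
      have h8 : (((∏ i, z.1 i)⁻¹ : (ZMod p)ˣ) : ZMod p) * ∏ i, (z.1 i : ZMod p) = 1 := by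
        rw [← Units.coe_prod, Units.inv_mul]
      rw [h8, mul_one]
    · intro e he hg m hm
      obtain ⟨l, hl, hl2, hl3⟩ := h3 e he hg m (by
        push_cast
        exact hm)
      exact ⟨l, hl, hl2.trans (hmo _ _ (by linarith)), hl3⟩
  · rintro ⟨i, x⟩ hz ⟨i', y⟩ hw hxy
    rw [mem_coe, mem_filter, Pool.Agent.N39.RG.fam, mem_sigma, Fintype.mem_piFinset] at hz hw
    simp only at hxy
    subst hxy
    have h3 : i = i' := by
      funext j
      have h1 := hz.1.2 j.succ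
      have h2 := hw.1.2 j.succ
      rw [mem_filter] at h1 h2
      have h4 := h1.2.symm.trans h2.2
      unfold Pool.Agent.U215.MH.pt at h4
      rw [Fin.cons_succ, Fin.cons_succ] at h4
      exact Units.ext h4
    rw [h3]

lemma part_two (r E : ℕ) (δ : ℝ) (hδ : 0 < δ) (hδ1 : δ ≤ 1) :
    ∃ κ : ℝ, 0 < κ ∧ ∃ p₀ : ℕ, ∀ (p : ℕ) [Fact p.Prime], p₀ ≤ p → Inverses r E δ κ p := by
  classical
  obtain ⟨κ, hκ, p₁, h⟩ := Pool.Agent.N39.RG.mainE r E (δ / 2) (by linarith) (by linarith)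
  obtain ⟨p₂, hp₂⟩ := rpow_ev (δ / 2) 7 (by linarith)
  refine ⟨κ, hκ, max p₁ p₂, ?_⟩
  intro p hp hpp ε I X Y b c u e v hX hY hT M L hL hV
  have g7 : 7 ≤ (p : ℝ) ^ (δ / 2) := hp₂ p ((le_max_right _ _).trans hpp)
  have hp1 : (1 : ℝ) < p := by exact_mod_cast hp.out.one_lt
  have hp0 : (0 : ℝ) < p := by linarith
  have hmo : ∀ x y : ℝ, x ≤ y → (p : ℝ) ^ x ≤ (p : ℝ) ^ y := fun x y h =>
    Real.rpow_le_rpow_of_exponent_le hp1.le h
  have hXc : (0 : ℝ) < X.card := by exact_mod_cast hX.card_pos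
  have hYc : (0 : ℝ) < Y.card := lt_of_lt_of_le (Real.rpow_pos_of_pos hp0 _) hY
  have hYne : Y.Nonempty := by
    rw [← card_pos]
    exact_mod_cast hYc
  have hScard : (((X ×ˢ Y).card : ℕ) : ℝ) = X.card * Y.card := by
    rw [card_product]; push_cast; rfl
  have key := h p ((le_max_left _ _).trans hpp) (ε - δ / 4) (I × ZMod p) (X ×ˢ Y)
    (fun q j => c q.1 j * q.2 + e j * (q.2 + b q.1)⁻¹ + u q.1 j + v q.2 j) (hX.product hYne) (by
      intro α hα
      have h2 := hT α hα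
      obtain ⟨N, hN⟩ : ∃ N : ℝ, N = (((X ×ˢ X).filter (fun q =>
        ∑ j, α j * (c q.1 j - c q.2 j) = 0 ∧ (∑ j, α j * e j = 0 ∨ b q.1 = b q.2))).card : ℝ) :=
        ⟨_, rfl⟩
      have h1 := Pool.Agent.U215.MH.bias_inv X r b c e u Y v α N hN.ge
      rw [hScard]
      apply le_of_sq_le_sq _ (by positivity)
      refine h1.trans ?_
      obtain ⟨a, ha⟩ : ∃ a : ℝ, a = (p : ℝ) ^ (2 * ε) := ⟨_, rfl⟩
      have ha0 : 0 < a := by rw [ha]; exact Real.rpow_pos_of_pos hp0 _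
      rw [← hN] at h2
      rw [Real.rpow_add hp0, Real.rpow_one, ← ha] at h2
      have h3 : Real.sqrt p * a ≤ Y.card := by
        rw [Real.sqrt_eq_rpow, ha, ← Real.rpow_add hp0]
        exact hY
      have h6 : ((p : ℝ) ^ (-(ε - δ / 4))) ^ 2 = (p : ℝ) ^ (δ / 2) / a := by
        rw [ha, ← Real.rpow_sub hp0, ← Real.rpow_natCast, ← Real.rpow_mul hp0.le]
        congr 1
        push_cast
        ring
      rw [mul_pow, mul_pow, h6, ← mul_div_assoc, le_div_iff₀ ha0]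
      have h7 : (N * p + (X.card : ℝ) ^ 2 * (6 * Real.sqrt p)) * a ≤
          (X.card : ℝ) ^ 2 * Y.card * (p : ℝ) ^ (δ / 2) := by
        calc (N * p + (X.card : ℝ) ^ 2 * (6 * Real.sqrt p)) * a
            = N * (p * a) + (X.card : ℝ) ^ 2 * (6 * (Real.sqrt p * a)) := by ring
          _ ≤ (X.card : ℝ) ^ 2 * Y.card + (X.card : ℝ) ^ 2 * (6 * Y.card) := by gcongr
          _ = (X.card : ℝ) ^ 2 * Y.card * 7 := by ring
          _ ≤ _ := by gcongr
      calc _ = (Y.card : ℝ) * ((N * p + (X.card : ℝ) ^ 2 * (6 * Real.sqrt p)) * a) := by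
            ring
        _ ≤ Y.card * ((X.card : ℝ) ^ 2 * Y.card * (p : ℝ) ^ (δ / 2)) := by gcongr
        _ = _ := by ring) M L (fun j => (hL j).2)
    (fun j => (hmo _ _ (by linarith)).trans (hL j).1)
    ((hmo _ _ (by linarith)).trans hV)
  rw [hScard] at key
  have hQ0 : 0 ≤ (X.card : ℝ) * Y.card * ∏ j, ((L j : ℝ) / p) :=
    mul_nonneg (by positivity) (prod_nonneg fun j _ => by positivity)
  refine (mul_le_mul_of_nonneg_right (hmo (-δ) (-(δ / 2)) (by linarith)) hQ0).trans (key.trans ?_)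
  have h5 := Pool.Agent.N39.RG.fam_to_index (X ×ˢ Y)
    (fun q : I × ZMod p => fun j => c q.1 j * q.2 + e j * (q.2 + b q.1)⁻¹ + u q.1 j + v q.2 j) M L
    (fun j => (hL j).2) (fun z => ∀ e : Fin r → ℕ, (∀ i, e i ≤ E) → Finset.univ.gcd e = 1 →
        Pool.Agent.N39.RG.Far (∏ i, z i ^ e i) (κ * Pool.Agent.W147.PS.ff p) ((p : ℝ) ^ (δ / 2)))
  refine le_trans (Nat.cast_le.mpr h5) ?_
  rw [Nat.cast_le]
  apply card_le_card
  intro q hq
  rw [mem_filter] at hq ⊢
  obtain ⟨h6, z, h7, h8⟩ := hq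
  refine ⟨h6, z, h7, fun e he hg m hm => ?_⟩
  obtain ⟨l, hl, hl2, hl3⟩ := h8 e he hg m (by
    push_cast
    exact hm)
  exact ⟨l, hl, hl2.trans (hmo _ _ (by linarith)), hl3⟩

/-- **Record prime gaps on modular hyperbolas and around inverses modulo `p`.** -/
theorem result (E : ℕ) (δ : ℝ) (hδ : 0 < δ) (hδ1 : δ ≤ 1) :
    (∀ k : ℕ, 2 ≤ k → ∃ κ : ℝ, 0 < κ ∧ ∃ p₀ : ℕ, ∀ p : ℕ, p.Prime → p₀ ≤ p → Hyperbola k E δ κ p) ∧
    ∀ r : ℕ, ∃ κ : ℝ, 0 < κ ∧ ∃ p₀ : ℕ, ∀ (p : ℕ) [Fact p.Prime], p₀ ≤ p → Inverses r E δ κ p :=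
  ⟨fun k hk => part_one k E hk δ hδ hδ1, fun r => part_two r E δ hδ hδ1⟩

end Pool.Agent.Results.MP_c853c5_nt.ModularHyperbolas
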