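import Pool.Agent.U419.PV.Main

/-!
# Record prime gaps around the values, at almost all prime points, of polynomials linear in one variable

Let `G` be an integral polynomial in `k` variables, of degree at most `D` and with coefficients up to `X ^ D`,
whose content has few prime factors up to `log X` (for instance a primitive polynomial). For all but an arbitrarily
small proportion of the vectors `(p_1, …, p_k)` of primes of `(X, 3X]` the following holds: for EVERY integer
`b` with `|b| ≤ X ^ D` the number `G(p_1, …, p_k) q + b` lies in the middle of a prime-free interval of record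
length for at least `X ^ (7/8)` primes `q` of `(X, 3X]` in every class prime to a squarefree number, and so do
all its multiples by rationals of bounded height.

Examples: products `p_1 ⋯ p_k q`, sums of such products, the determinants of the matrices whose entries are
primes, the discriminants of the polynomials with prime coefficients which are linear in one coefficient
(`b = H(p_1, …, p_k)` may be any function of the other primes).

For one multiplier `a` without many small prime factors this is the starting result `EveryMultiplier`
(`Y678/RG`). New here is the arithmetic of the values of `G` at prime points: by the inequality of Brun and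
Titchmarsh and the lemma of Schwartz and Zippel modulo the small primes, the value `G(p_1, …, p_k)` has few small
prime factors with a small sum of inverses, apart from those dividing all the coefficients of `G`, for all but a small
proportion of the points, uniformly in `G`.
-/

set_option autoImplicit false

namespace Pool.Agent.Results.MP_c853c5_nt.PolynomialsInPrimes

/-- The record scale `f(x) = log x (log₂ x)² log₄ x / (log₃ x)²` (iterated natural logarithms). -/
noncomputable def f (x : ℝ) : ℝ :=
  Real.log x * (Real.log (Real.log x)) ^ 2 * Real.log (Real.log (Real.log (Real.log x))) /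
    (Real.log (Real.log (Real.log x))) ^ 2

/-- For all `k`, `J`, `D`, `A₀`, `ε > 0` and squarefree `d` there is `c > 0` such that for all large `X` and ALL
integral polynomials `G ≠ 0` in `k` variables of total degree at most `D`, with coefficients of absolute
value at most `X ^ D`, such that the primes up to `log X` which divide all the coefficients of `G` are at most
`D (log log X)²` in number, with sum of inverses at most `A₀` (no condition if `G` is primitive and `A₀ ≥ 0`):
for all but a proportion `ε` of the vectors `p` of `k` primes of `(X, 3X]`, for all integers `b` with `|b| ≤ X ^ D` and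
all `h` prime to `d`, at least `X ^ (7/8)` primes `q ∈ (X, 3X]`, `q ≡ h (mod d)`, are such that for all integers
`i`, `j` with `1 ≤ |i|, |j| ≤ J` and every prime `l ≠ q` one has `|j l - i (G(p) q + b)| > c f(X)`. -/
theorem result (k J D : ℕ) (A₀ ε : ℝ) (hε : 0 < ε) (d : ℕ) (hd : Squarefree d) :
    ∃ c : ℝ, 0 < c ∧ ∃ X₀ : ℝ, ∀ X : ℝ, X₀ ≤ X → ∀ G : MvPolynomial (Fin k) ℤ, G ≠ 0 → G.totalDegree ≤ D →
      (∀ m, |((G.coeff m : ℤ) : ℝ)| ≤ X ^ D) →
      (∀ s : Finset ℕ, (∀ r ∈ s, r.Prime ∧ (r : ℝ) ≤ Real.log X ∧ ∀ m, (r : ℤ) ∣ G.coeff m) →
        (s.card : ℝ) ≤ D * (Real.log (Real.log X)) ^ 2 ∧ ∑ r ∈ s, (1 : ℝ) / r ≤ A₀) →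
      ({p : Fin k → ℕ | (∀ i, (p i).Prime ∧ X < p i ∧ (p i : ℝ) ≤ 3 * X) ∧
        ¬ ∀ b : ℤ, |(b : ℝ)| ≤ X ^ D → ∀ h : ℕ, h.Coprime d →
          X ^ (7 / 8 : ℝ) ≤ ({q : ℕ | q.Prime ∧ X < q ∧ (q : ℝ) ≤ 3 * X ∧ q ≡ h [MOD d] ∧
            ∀ i j : ℤ, 1 ≤ |i| → |i| ≤ J → 1 ≤ |j| → |j| ≤ J → ∀ l : ℕ, l.Prime → l ≠ q →
              c * f X < |((j * l - i * (MvPolynomial.eval (fun i => (p i : ℤ)) G * q + b) : ℤ) : ℝ)|}.ncard
                : ℝ)}.ncard : ℝ) ≤
      ε * ({q : ℕ | q.Prime ∧ X < q ∧ (q : ℝ) ≤ 3 * X}.ncard : ℝ) ^ k :=
  Pool.Agent.U419.PV.main k J D A₀ ε hε d hd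

end Pool.Agent.Results.MP_c853c5_nt.PolynomialsInPrimes
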